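import Pool.Agent.K3h20.CR.StmD2
import Pool.Agent.K3h23.CR.Dyn

/-!
# Project CR2, brick DYN2
-/

set_option autoImplicit false

open Set Filter Topology Metric
open scoped OnePoint

namespace Pool.Agent.K3h22.CR

open Pool.Agent.H462R2.AP Pool.Agent.H762R2.Rt Pool.Agent.Helper114.Herman
  Pool.Agent.Helper114.Konig Pool.Agent.TH433.MC Pool.Agent.K3h20.CR Pool.Agent.K3h23.CR

/-- a contraction of a disc -/
theorem disc' {H : ℂ → ℂ} {w₀ : ℂ} {r q : ℝ} (hr : 0 < r) (hq0 : 0 ≤ q) (hq : q < 1)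
    (hm : ∀ w ∈ closedBall w₀ r, H w ∈ ball w₀ r)
    (hl : ∀ w ∈ closedBall w₀ r, ∀ w' ∈ closedBall w₀ r, ‖H w - H w'‖ ≤ q * ‖w - w'‖) :
    ∃ p ∈ ball w₀ r, H p = p ∧
      ∀ w ∈ closedBall w₀ r, Tendsto (fun k : ℕ => H^[k] w) atTop (𝓝 p) := by
  have hin : ∀ x : ℂ, ‖x‖ ≤ r → w₀ + x ∈ closedBall w₀ r := by
    intro x hx
    rw [mem_closedBall, dist_eq_norm, add_sub_cancel_left]
    exact hx
  obtain ⟨p, hp, hfix, ht⟩ := disc_contraction (H := fun x => H (w₀ + x) - w₀) hr hq0 hq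
    (fun x hx => by
      have := hm _ (hin x hx)
      rwa [mem_ball, dist_eq_norm] at this)
    (fun x y hx hy => by
      have := hl _ (hin x hx) _ (hin y hy)
      rw [add_sub_add_left_eq_sub] at this
      rw [sub_sub_sub_cancel_right]
      exact this)
  refine ⟨w₀ + p, ?_, ?_, fun w hw => ?_⟩
  · rw [mem_ball, dist_eq_norm, add_sub_cancel_left]
    exact hp
  · have : H (w₀ + p) - w₀ = p := hfix
    rw [sub_eq_iff_eq_add] at this
    rw [this, add_comm]
  · have hw' : ‖w - w₀‖ ≤ r := by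
      rw [mem_closedBall, dist_eq_norm] at hw
      exact hw
    have h1 := (ht (w - w₀) hw').const_add w₀
    refine h1.congr fun k => ?_
    have h2 : ∀ k : ℕ, (fun x => H (w₀ + x) - w₀)^[k] (w - w₀) = H^[k] w - w₀ := by
      intro k
      induction k with
      | zero => rfl
      | succ k ih =>
        rw [Function.iterate_succ_apply', ih, Function.iterate_succ_apply']
        simp
    rw [h2]
    ring

/-- a rational map with an attracting disc for `w ↦ F w ^ n` -/
theorem sinks_core {f : OnePoint ℂ → OnePoint ℂ} {F : ℂ → ℂ} {n : ℕ} {Ok : ℂ → Prop}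
    (hOk : ∀ w, Ok w → ContinuousAt F w)
    (hf : ∀ z : ℂ, Ok (z ^ n) → f (z : OnePoint ℂ) = ((F (z ^ n) : ℂ) : OnePoint ℂ))
    {w₀ : ℂ} {δ q : ℝ} {p : ℕ} (hp : 0 < p) (hδ : 0 < δ) (hq0 : 0 ≤ q) (hq : q < 1)
    (hok : ∀ w ∈ closedBall w₀ δ, ∀ i < p, Ok ((fun w => F w ^ n)^[i] w))
    (hin : ∀ w ∈ closedBall w₀ δ, (fun w => F w ^ n)^[p] w ∈ ball w₀ δ)
    (hl : ∀ w ∈ closedBall w₀ δ, ∀ w' ∈ closedBall w₀ δ,
      ‖(fun w => F w ^ n)^[p] w - (fun w => F w ^ n)^[p] w'‖ ≤ q * ‖w - w'‖) :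
    ∀ z : ℂ, z ^ n ∈ closedBall w₀ δ → Sinks f (z : OnePoint ℂ) := by
  set G : ℂ → ℂ := fun w => F w ^ n with hG
  obtain ⟨p', rfl⟩ : ∃ p', p = p' + 1 := ⟨p - 1, by omega⟩
  obtain ⟨ws, hws, hfix, hlim⟩ := disc' hδ hq0 hq hin hl
  have hwsc : ws ∈ closedBall w₀ δ := ball_subset_closedBall hws
  -- iterates
  have hiter : ∀ i : ℕ, ∀ z : ℂ, (∀ j ≤ i, Ok (G^[j] (z ^ n))) →
      f^[i + 1] (z : OnePoint ℂ) = ((F (G^[i] (z ^ n)) : ℂ) : OnePoint ℂ) := by
    intro i
    induction i with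
    | zero =>
      intro z hz
      exact hf z (hz 0 le_rfl)
    | succ i ih =>
      intro z hz
      rw [Function.iterate_succ_apply', ih z fun j hj => hz j (by omega)]
      have h1 : (F (G^[i] (z ^ n))) ^ n = G^[i + 1] (z ^ n) := by
        rw [Function.iterate_succ_apply']
      rw [hf _ (by rw [h1]; exact hz (i + 1) le_rfl), h1]
  set Φ : ℂ → ℂ := fun w => F (G^[p'] w) with hΦ
  have hΦn : ∀ w, Φ w ^ n = G^[p' + 1] w := fun w => by
    rw [Function.iterate_succ_apply']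
  have hfp : ∀ z : ℂ, z ^ n ∈ closedBall w₀ δ →
      f^[p' + 1] (z : OnePoint ℂ) = ((Φ (z ^ n) : ℂ) : OnePoint ℂ) := by
    intro z hz
    exact hiter p' z fun j hj => hok _ hz j (by omega)
  have hHk : ∀ k : ℕ, ∀ w ∈ closedBall w₀ δ, (G^[p' + 1])^[k] w ∈ closedBall w₀ δ := by
    intro k w hw
    induction k with
    | zero => exact hw
    | succ k ih =>
      rw [Function.iterate_succ_apply']
      exact ball_subset_closedBall (hin _ ih)
  have hfk : ∀ k : ℕ, ∀ z : ℂ, z ^ n ∈ closedBall w₀ δ →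
      f^[(p' + 1) * (k + 1)] (z : OnePoint ℂ) =
        ((Φ ((G^[p' + 1])^[k] (z ^ n)) : ℂ) : OnePoint ℂ) := by
    intro k z hz
    induction k with
    | zero =>
      rw [zero_add, mul_one]
      exact hfp z hz
    | succ k ih =>
      rw [show (p' + 1) * (k + 1 + 1) = (p' + 1) + (p' + 1) * (k + 1) by ring,
        Function.iterate_add_apply, ih, hfp _ (by
          rw [hΦn, ← Function.iterate_succ_apply' (G^[p' + 1])]
          exact hHk (k + 1) _ hz), hΦn, ← Function.iterate_succ_apply' (G^[p' + 1])]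
  -- continuity
  have hGc : ∀ i ≤ p', ContinuousAt (G^[i]) ws := by
    intro i
    induction i with
    | zero => intro _; exact continuousAt_id
    | succ i ih =>
      intro hi
      rw [Function.iterate_succ']
      refine ContinuousAt.comp ?_ (ih (by omega))
      exact (hOk _ (hok ws hwsc i (by omega))).pow n
  have hΦc : ContinuousAt Φ ws :=
    ContinuousAt.comp (hOk _ (hok ws hwsc p' (by omega))) (hGc p' le_rfl)
  have hzs : Φ ws ^ n = ws := by rw [hΦn]; exact hfix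
  have hconv : ∀ z : ℂ, z ^ n ∈ closedBall w₀ δ →
      Tendsto (fun k : ℕ => f^[(p' + 1) * k] (z : OnePoint ℂ)) atTop
        (𝓝 ((Φ ws : ℂ) : OnePoint ℂ)) := by
    intro z hz
    rw [← tendsto_add_atTop_iff_nat 1]
    have h1 : Tendsto (fun k : ℕ => Φ ((G^[p' + 1])^[k] (z ^ n))) atTop (𝓝 (Φ ws)) :=
      hΦc.tendsto.comp (hlim _ hz)
    have h2 := (OnePoint.continuous_coe.tendsto (Φ ws)).comp h1
    exact h2.congr fun k => (hfk k z hz).symm
  intro z hz
  refine ⟨((Φ ws : ℂ) : OnePoint ℂ), p' + 1, by omega, ?_,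
    ⟨(fun x : ℂ => (x : OnePoint ℂ)) '' {x | x ^ n ∈ ball w₀ δ}, ?_, ?_⟩, hconv z hz⟩
  · rw [hfp _ (by rw [hzs]; exact hwsc), hzs]
  · have hop : IsOpen {x : ℂ | x ^ n ∈ ball w₀ δ} := isOpen_ball.preimage (continuous_pow n)
    refine ((OnePoint.isOpenEmbedding_coe (X := ℂ)).isOpenMap _ hop).mem_nhds ?_
    exact ⟨Φ ws, by rw [mem_ofPred_eq, hzs]; exact hws, rfl⟩
  · rintro w ⟨x, hx, rfl⟩
    exact hconv x (ball_subset_closedBall hx)

/-- orbits entering the attracting disc -/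
theorem sinks_orbit {f : OnePoint ℂ → OnePoint ℂ} (hfc : Continuous f) {F : ℂ → ℂ} {n : ℕ}
    {Ok : ℂ → Prop}
    (hf : ∀ z : ℂ, Ok (z ^ n) → f (z : OnePoint ℂ) = ((F (z ^ n) : ℂ) : OnePoint ℂ))
    {w₀ : ℂ} {δ : ℝ} (h : ∀ z : ℂ, z ^ n ∈ closedBall w₀ δ → Sinks f (z : OnePoint ℂ)) :
    ∀ (m : ℕ) (z : ℂ), (∀ j < m, Ok ((fun w => F w ^ n)^[j] (z ^ n))) →
      (fun w => F w ^ n)^[m] (z ^ n) ∈ closedBall w₀ δ → Sinks f (z : OnePoint ℂ) := by
  intro m
  induction m with
  | zero => intro z _ hz; exact h z hz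
  | succ m ih =>
    intro z hz hz'
    apply sinks_of_image hfc
    rw [hf z (hz 0 (by omega))]
    refine ih _ (fun j hj => ?_) ?_
    · have := hz (j + 1) (by omega)
      rwa [Function.iterate_succ_apply] at this
    · rwa [Function.iterate_succ_apply] at hz'

theorem t_dyn2 : St_dyn2 := by
  intro P Q hc D hD hD1 a b ha hab hsep
  have hQ0 : Q ≠ 0 := by
    rintro rfl
    have h1 : IsUnit P := isCoprime_zero_right.1 hc
    have h2 := Polynomial.natDegree_eq_zero_of_isUnit h1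
    rw [h2, Polynomial.natDegree_zero, max_self] at hD
    omega
  have h0ne : P.coeff 0 ≠ 0 ∨ Q.coeff 0 ≠ 0 := by
    by_contra h
    push Not at h
    exact (hsep a le_rfl hab).1 (by rw [h.1, h.2, norm_zero, mul_zero])
  have hDne : P.coeff D ≠ 0 ∨ Q.coeff D ≠ 0 := by
    by_contra h
    push Not at h
    exact (hsep a le_rfl hab).2 (by rw [h.1, h.2, norm_zero, mul_zero])
  have hcen : ∀ i : Bool, ∃ w : ℝ, 0 < w ∧ ∃ ρ : ℝ, 0 < ρ ∧ ρ < 1 ∧ ∀ w' : ℝ, w' ≤ w →
      ∀ z : ℂ, ‖z‖ ≤ ρ → ∀ s : ℂ, a ≤ ‖s‖ → ‖s‖ ≤ b →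
      Good (2 * w') (s * (cp D P i).eval z) ((cp D Q i).eval z) ∧
        (s * (cp D P i).eval z ≠ 0 ∨ (cp D Q i).eval z ≠ 0) := by
    intro i
    refine near_centre _ _ ha hab ?_
    cases i
    · rw [cp_false, cp_false, ← Polynomial.coeff_zero_eq_eval_zero,
        ← Polynomial.coeff_zero_eq_eval_zero]
      exact sep (norm_nonneg _) (norm_nonneg _) hab fun t h1 h2 => (hsep t h1 h2).1
    · rw [eval_cp_true_zero, eval_cp_true_zero]
      exact sep (norm_nonneg _) (norm_nonneg _) hab fun t h1 h2 => (hsep t h1 h2).2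
  choose wi hwi ρi hρi hρi1 hgood using hcen
  set w : ℝ := min (wi false) (wi true) with hw
  have hw0 : 0 < w := lt_min (hwi _) (hwi _)
  have hwle : ∀ i, w ≤ wi i := by
    intro i
    cases i
    · exact min_le_left _ _
    · exact min_le_right _ _
  set ρ₀ : ℝ := min (ρi false) (ρi true) with hρ₀
  have hρle : ∀ i, ρ₀ ≤ ρi i := by
    intro i
    cases i
    · exact min_le_left _ _
    · exact min_le_right _ _
  have hρ0 : 0 < ρ₀ := lt_min (hρi _) (hρi _)
  have hρ1 : ρ₀ < 1 := lt_of_le_of_lt (min_le_left _ _) (hρi1 _)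
  obtain ⟨M, hM1, hPM, hQM, hM0, hMD, hMa, hMb⟩ := exists_M hD ha hab h0ne hDne
  obtain ⟨n₀, hn₀⟩ := eventually_atTop.1 (consts D M w hM1 hw0)
  refine ⟨ρ₀, hρ0, hρ1, max n₀ 2, ?_⟩
  intro n hn s hs1 hs2 hdec
  have hn2 : 2 ≤ n := (le_max_right _ _).trans hn
  have hn0 : 0 < n := by omega
  obtain ⟨c1, c2, c3⟩ := hn₀ n ((le_max_left _ _).trans hn)
  have hs0 : s ≠ 0 := by
    rintro rfl
    rw [norm_zero] at hs1
    linarith
  have hcop := coprime_family hc hs0 n
  have hQe : Polynomial.expand ℂ n Q ≠ 0 := (Polynomial.expand_ne_zero hn0).2 hQ0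
  obtain ⟨f, hf, -⟩ := exists_isRat hcop hQe
  have hFar : ∀ p q : ℂ, Good (2 * w) (s * p) q → Far w s p q := by
    intro p q h
    unfold Pool.Agent.H462R2.AP.Good at h
    unfold Far
    rwa [show -2 * w = -(2 * w) by ring]
  have hg0 : ∀ i, Good (2 * w) (s * (cp D P i).eval 0) ((cp D Q i).eval 0) := fun i =>
    (hgood i w (hwle i) 0 (by rw [norm_zero]; exact (hρi i).le) s hs1 hs2).1
  have hF0 : Far w s (P.coeff 0) (Q.coeff 0) := by
    have h := hg0 false
    rw [cp_false, cp_false, ← Polynomial.coeff_zero_eq_eval_zero,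
      ← Polynomial.coeff_zero_eq_eval_zero] at h
    exact hFar _ _ h
  have hFD : Far w s (P.coeff D) (Q.coeff D) := by
    have h := hg0 true
    rw [eval_cp_true_zero, eval_cp_true_zero] at h
    exact hFar _ _ h
  have hS : ∀ i x, ‖x‖ ≤ Real.exp (-w) → Sinks f (ch i x) :=
    trap_far hD hD1 hM1 hPM hQM hM0 hMD (hMa.trans hs1) (hs2.trans hMb) hn2 hw0 c1 c2 c3 hF0 hFD hf
  have hS' : ∀ i x, ‖x‖ ≤ Real.exp (-(2 * w / 2)) → Sinks f (ch i x) := by
    intro i x hx
    apply hS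
    rwa [show 2 * w / 2 = w by ring] at hx
  have hexpand : Polynomial.C s * Polynomial.expand ℂ n P =
      Polynomial.expand ℂ n (Polynomial.C s * P) := by
    rw [map_mul, Polynomial.expand_C]
  have hf' : IsRat f (Polynomial.expand ℂ n (Polynomial.C s * P)) (Polynomial.expand ℂ n Q) := by
    rw [← hexpand]
    exact hf
  have hDs : D = max (Polynomial.C s * P).natDegree Q.natDegree := by
    rw [Polynomial.natDegree_C_mul hs0, hD]
  have hcs : IsCoprime (Polynomial.C s * P) Q :=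
    (isCoprime_mul_unit_left_left (Polynomial.isUnit_C.2 (isUnit_iff_ne_zero.2 hs0)) _ _).2 hc
  have hmap := map_ch hDs hD1 hn0 hf'
  have hevs : ∀ i y, (cp D (Polynomial.C s * P) i).eval y = s * (cp D P i).eval y := by
    intro i y
    rw [cp_smul, Polynomial.eval_mul, Polynomial.eval_C]
  -- near the centres of the charts
  have hcentre : ∀ i x, ‖x ^ n‖ ≤ ρ₀ → Sinks f (ch i x) := by
    intro i x hx
    apply sinks_of_image hf.cont
    rw [hmap, hevs]
    obtain ⟨h1, h2⟩ := hgood i w (hwle i) (x ^ n) (hx.trans (hρle i)) s hs1 hs2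
    exact good_sinks (by positivity) hS' h2 h1
  have hinf : Sinks f (∞ : OnePoint ℂ) := by
    have e1 : ch true 0 = ∞ := by simp [ch, sinv_zero]
    rw [← e1]
    exact hS true 0 (by rw [norm_zero]; exact (Real.exp_pos _).le)
  have hzero : Sinks f ((0 : ℂ) : OnePoint ℂ) := by
    have := hS false 0 (by rw [norm_zero]; exact (Real.exp_pos _).le)
    rwa [ch_false] at this
  -- the orbits
  set G : ℂ → ℂ := fun u => (s * (P.eval u / Q.eval u)) ^ n with hG
  have horb : ∀ j : ℕ, ∀ z : ℂ, ¬ (ρ₀ ≤ ‖G^[j] (z ^ n)‖ ∧ ‖G^[j] (z ^ n)‖ ≤ ρ₀⁻¹) →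
      Sinks f (z : OnePoint ℂ) := by
    intro j
    induction j with
    | zero =>
      intro z hz
      rw [Function.iterate_zero, id] at hz
      by_cases h1 : ‖z ^ n‖ ≤ ρ₀
      · have := hcentre false z h1
        rwa [ch_false] at this
      · have h2 : ρ₀⁻¹ < ‖z ^ n‖ := by
          by_contra h3
          exact hz ⟨(not_le.1 h1).le, not_lt.1 h3⟩
        have hzn : 0 < ‖z ^ n‖ := lt_trans (inv_pos.2 hρ0) h2
        have hz0 : z ≠ 0 := by
          rintro rfl
          rw [zero_pow hn0.ne', norm_zero] at hzn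
          exact lt_irrefl _ hzn
        have h3 := hcentre true z⁻¹ (by
          rw [inv_pow, norm_inv, inv_le_comm₀ hzn hρ0]
          exact h2.le)
        rw [ch_true] at h3
        simp only at h3
        rwa [sinv_coe (inv_ne_zero hz0), inv_inv] at h3
    | succ j ih =>
      intro z hz
      rw [Function.iterate_succ_apply] at hz
      apply sinks_of_image hf.cont
      have h4 := hmap false z
      rw [cp_false, cp_false, ch_false] at h4
      simp only at h4
      rw [h4]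
      by_cases hq : Q.eval (z ^ n) = 0
      · rw [hq, pr_zero]
        exact hinf
      · rw [pr_ne hq, Polynomial.eval_mul, Polynomial.eval_C]
        refine ih _ ?_
        rw [mul_div_assoc]
        exact hz
  have hwro : ∀ y, (wro (Polynomial.C s * P) Q).eval y = s * (wro P Q).eval y := by
    intro y
    unfold wro
    rw [Polynomial.derivative_C_mul]
    simp only [Polynomial.eval_sub, Polynomial.eval_mul, Polynomial.eval_C]
    ring
  rw [hexpand]
  refine hyp_of_values hcs hDs hD1 hn0 hf' (fun i => hS i 0 (by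
    rw [norm_zero]; exact (Real.exp_pos _).le)) ?_
  intro y hy
  rw [hwro] at hy
  have hy' : (wro P Q).eval y = 0 := (mul_eq_zero.1 hy).resolve_left hs0
  rw [Polynomial.eval_mul, Polynomial.eval_C]
  by_cases hq : Q.eval y = 0
  · rw [hq, pr_zero]
    exact hinf
  rw [pr_ne hq]
  by_cases hp : P.eval y = 0
  · rw [hp, mul_zero, zero_div]
    exact hzero
  rcases hdec y hy' hp hq with h1 | h1
  · rw [Und, mem_ofPred_eq] at h1
    push Not at h1
    obtain ⟨j, hj⟩ := h1
    refine horb j _ ?_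
    rw [mul_div_assoc]
    rw [orb_eq hp hq] at hj
    rintro ⟨h2, h3⟩
    exact absurd h3 (not_le.2 (hj h2))
  · obtain ⟨m, p, w₀, δ, q, hp0, hδ, hq0, hq1, hm, hmB, hok, hin, hl⟩ := h1
    have hv : P.eval y / Q.eval y ≠ 0 := div_ne_zero hp hq
    have hW : (fun w : ℂ => (s * (P.eval y / Q.eval y)) ^ n * rr P Q y w ^ n) =
        fun w : ℂ => (s * (P.eval w / Q.eval w)) ^ n := by
      funext w
      rw [← mul_pow, rr]
      congr 1
      field_simp
    rw [hW] at hok hin hl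
    have hokr : ∀ w : ℂ, rr P Q y w ≠ 0 → Q.eval w ≠ 0 := by
      intro w hw h0
      apply hw
      rw [rr, h0, div_zero, zero_div]
    have hfF : ∀ z : ℂ, Q.eval (z ^ n) ≠ 0 →
        f (z : OnePoint ℂ) = ((s * (P.eval (z ^ n) / Q.eval (z ^ n)) : ℂ) : OnePoint ℂ) := by
      intro z hz
      have h4 := hmap false z
      rw [cp_false, cp_false, ch_false] at h4
      simp only at h4
      rw [h4, pr_ne hz, Polynomial.eval_mul, Polynomial.eval_C, mul_div_assoc]
    have hcore := sinks_core (f := f) (F := fun w => s * (P.eval w / Q.eval w)) (n := n)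
      (Ok := fun w => Q.eval w ≠ 0) (fun w hw => by
        refine ContinuousAt.mul continuousAt_const ?_
        exact P.continuous.continuousAt.div Q.continuous.continuousAt hw) hfF hp0 hδ hq0 hq1
      (fun w hw i hi => hokr _ (hok w hw i hi)) hin hl
    have horbit := sinks_orbit hf.cont (F := fun w => s * (P.eval w / Q.eval w)) (n := n)
      (Ok := fun w => Q.eval w ≠ 0) hfF hcore m (s * (P.eval y / Q.eval y)) ?_ ?_
    · rw [mul_div_assoc]
      exact horbit
    · intro j hj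
      have h2 := hokr _ (hm j hj)
      rwa [orb_eq hp hq] at h2
    · rwa [orb_eq hp hq] at hmB

end Pool.Agent.K3h22.CR
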